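import Pool.Agent.H17.QI.Block

/-!
# The coNP language of a random oracle is immune for quantum verifiers
-/

set_option autoImplicit false

namespace Pool.Agent.H17.QM

open MeasureTheory Filter Topology

/-! ### Measurability -/

lemma measurableSet_local {κ : Type} (S : Finset κ) (P : (κ → Bool) → Prop)
    (hP : ∀ A A' : κ → Bool, (∀ s ∈ S, A s = A' s) → (P A ↔ P A')) :
    MeasurableSet {A | P A} := by
  classical
  let r : (κ → Bool) → (S → Bool) := fun ω s => ω s
  let b : (S → Bool) → (κ → Bool) := fun η s => if h : s ∈ S then η ⟨s, h⟩ else false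
  have hr : Measurable r := measurable_pi_lambda _ fun s => measurable_pi_apply _
  have e : {A | P A} = r ⁻¹' {η | P (b η)} := by
    ext A
    simp only [Set.mem_ofPred_eq, Set.mem_preimage]
    refine hP A (b (r A)) fun s hs => ?_
    simp only [b, r, hs, dif_pos]
  rw [e]
  exact hr (Set.toFinite _).measurableSet

namespace QVer

variable {κ : Type} (V : QVer κ)

lemma prob_local [DecidableEq κ] (A A' : κ → Bool)
    (h : ∀ s ∈ (Finset.univ.biUnion fun i : Fin V.dim => (V.query i).toFinset), A s = A' s)
    (ψ : V.wit) : (V.alg ψ).prob (ph A) = (V.alg ψ).prob (ph A') := by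
  refine (V.alg ψ).prob_congr fun i s hs => ?_
  have hsS : s ∈ (Finset.univ.biUnion fun i : Fin V.dim => (V.query i).toFinset) := by
    simp only [Finset.mem_biUnion, Finset.mem_univ, true_and]
    have hs' : V.query i = some s := hs
    exact ⟨i, by simp [hs']⟩
  simp only [ph, h s hsS]

lemma measurableSet_accepts (α : ℝ) : MeasurableSet {A : κ → Bool | V.Accepts (ph A) α} := by
  classical
  refine measurableSet_local (Finset.univ.biUnion fun i : Fin V.dim => (V.query i).toFinset) _
    fun A A' h => ?_
  unfold Accepts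
  simp only [V.prob_local A A' h]

lemma measurableSet_le (β : ℝ) :
    MeasurableSet {A : κ → Bool | ∀ ψ : V.wit, (V.alg ψ).prob (ph A) ≤ β} := by
  classical
  refine measurableSet_local (Finset.univ.biUnion fun i : Fin V.dim => (V.query i).toFinset) _
    fun A A' h => ?_
  simp only [V.prob_local A A' h]

end QVer

lemma measurableSet_colang (x : List Bool) :
    MeasurableSet {ω : List Bool → Bool | x ∈ colang ω} := by
  have e : {ω : List Bool → Bool | x ∈ colang ω} =
      (⋃ y : {y : List Bool // rk y < cnum x.length},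
        ⋂ i : Fin (clen x.length), (fun ω : List Bool → Bool => ω (code x y i)) ⁻¹' {true})ᶜ := by
    ext ω
    simp only [colang, Set.mem_ofPred_eq, Set.mem_compl_iff, Set.mem_iUnion, Set.mem_iInter,
      Set.mem_preimage, Set.mem_singleton_iff]
    refine not_congr ⟨?_, ?_⟩
    · rintro ⟨y, hy, h⟩
      exact ⟨⟨y, hy⟩, fun i => h i i.2⟩
    · rintro ⟨y, h⟩
      exact ⟨y, y.2, fun i hi => h ⟨i, hi⟩⟩
  rw [e]
  exact (MeasurableSet.iUnion fun y => MeasurableSet.iInter fun i =>
    (measurable_pi_apply _) (measurableSet_singleton _)).compl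

/-! ### The density of the language -/

/-- The probability that a string of length `n` is in the language. -/
noncomputable def cden (n : ℕ) : ℝ := 1 / (1 + wq (Fin (clen n) → Bool)) ^ cnum n

lemma cden_bounds (n : ℕ) : 1 / 2 * (1 / 2 ^ n) ≤ cden n ∧ cden n ≤ 2 * (1 / 2 ^ n) := by
  set K : ℕ := cnum n with hK
  set m : ℕ := clen n with hm
  have hm' : (2 : ℝ) ^ m = 4 * 8 ^ n := by
    rw [hm, clen, pow_add, pow_mul]; norm_num; ring
  have h8n : (8 : ℝ) ^ n ≥ 1 := one_le_pow₀ (by norm_num)
  have hn8 : (n : ℝ) ≤ 8 ^ n := by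
    have : n < 8 ^ n := Nat.lt_pow_self (by norm_num)
    exact_mod_cast this.le
  have h2m : (2 : ℝ) ≤ 2 ^ m := by rw [hm']; linarith
  set x : ℝ := 1 / 2 ^ m with hx
  have hx0 : 0 < x := by positivity
  have hx1 : x ≤ 1 / 4 := by
    rw [hx, div_le_div_iff₀ (by positivity) (by norm_num), hm']; linarith
  have hxn : x * n ≤ 1 / 4 := by
    rw [hx, hm', div_mul_eq_mul_div, one_mul, div_le_div_iff₀ (by positivity) (by norm_num)]
    linarith
  have hlog2 : 0 < Real.log 2 := Real.log_pos (by norm_num)
  have hlog2' : Real.log 2 ≤ 1 := by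
    have := Real.log_le_sub_one_of_pos (show (0 : ℝ) < 2 by norm_num)
    linarith
  have hn0 : (0 : ℝ) ≤ n := Nat.cast_nonneg _
  have hKle : (K : ℝ) ≤ 2 ^ m * (n * Real.log 2) := Nat.floor_le (by positivity)
  have hKgt : 2 ^ m * (n * Real.log 2) < K + 1 := Nat.lt_floor_add_one _
  have hxm : x * 2 ^ m = 1 := by rw [hx]; field_simp
  have hKx : (K : ℝ) * x ≤ n * Real.log 2 := by
    calc (K : ℝ) * x ≤ (2 ^ m * (n * Real.log 2)) * x := mul_le_mul_of_nonneg_right hKle hx0.le
      _ = (x * 2 ^ m) * (n * Real.log 2) := by ring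
      _ = n * Real.log 2 := by rw [hxm, one_mul]
  have hKx' : n * Real.log 2 ≤ K * x + x := by
    calc n * Real.log 2 = (x * 2 ^ m) * (n * Real.log 2) := by rw [hxm, one_mul]
      _ = (2 ^ m * (n * Real.log 2)) * x := by ring
      _ ≤ ((K : ℝ) + 1) * x := mul_le_mul_of_nonneg_right hKgt.le hx0.le
      _ = K * x + x := by ring
  have h1x : 0 < 1 - x := by linarith
  have hw : 1 + wq (Fin m → Bool) = 1 / (1 - x) := by
    have hc : (Fintype.card (Fin m → Bool) : ℝ) = 2 ^ m := by simp
    rw [wq, hc, hx]
    have h3 : (2 : ℝ) ^ m - 1 ≠ 0 := by linarith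
    have h4 : (2 : ℝ) ^ m ≠ 0 := by positivity
    field_simp
    ring
  have hP : cden n = Real.exp (K * Real.log (1 - x)) := by
    rw [cden, ← hm, ← hK, hw, one_div_pow, ← Real.log_pow, Real.exp_log (by positivity)]
    field_simp
  have hinv : 1 / (1 - x) ≤ 1 + 2 * x := by
    rw [div_le_iff₀ h1x]; nlinarith
  have hlogu : Real.log (1 - x) ≤ -x := by
    have := Real.log_le_sub_one_of_pos h1x
    linarith
  have hlogl : -(x * (1 + 2 * x)) ≤ Real.log (1 - x) := by
    have h5 := Real.one_sub_inv_le_log_of_pos h1x
    have h6 : 1 - (1 - x)⁻¹ = -(x * (1 / (1 - x))) := by field_simp; ring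
    rw [h6] at h5
    have h7 : x * (1 / (1 - x)) ≤ x * (1 + 2 * x) := mul_le_mul_of_nonneg_left hinv hx0.le
    linarith
  have hK0 : (0 : ℝ) ≤ K := Nat.cast_nonneg _
  have hexpl : Real.exp (-(n * Real.log 2)) = 1 / 2 ^ n := by
    rw [Real.exp_neg, mul_comm, Real.exp_mul, Real.exp_log (by norm_num), Real.rpow_natCast]
    simp
  have hup : K * Real.log (1 - x) ≤ -(n * Real.log 2) + x := by
    have : K * Real.log (1 - x) ≤ K * (-x) := mul_le_mul_of_nonneg_left hlogu hK0
    linarith
  have hlo : -(n * Real.log 2) - 2 * (x * n) ≤ K * Real.log (1 - x) := by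
    have h8 : K * (-(x * (1 + 2 * x))) ≤ K * Real.log (1 - x) :=
      mul_le_mul_of_nonneg_left hlogl hK0
    have h9 : (K : ℝ) * (x * (1 + 2 * x)) ≤ (n * Real.log 2) * (1 + 2 * x) := by
      calc (K : ℝ) * (x * (1 + 2 * x)) = (K * x) * (1 + 2 * x) := by ring
        _ ≤ _ := mul_le_mul_of_nonneg_right hKx (by positivity)
    have h10 : (n * Real.log 2) * (2 * x) ≤ 2 * (x * n) := by
      have : (n : ℝ) * Real.log 2 ≤ n * 1 := mul_le_mul_of_nonneg_left hlog2' hn0
      nlinarith
    nlinarith
  rw [hP]
  constructor
  · calc 1 / 2 * (1 / 2 ^ n) ≤ Real.exp (-(2 * (x * n))) * (1 / 2 ^ n) := by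
          refine mul_le_mul_of_nonneg_right ?_ (by positivity)
          have := Real.add_one_le_exp (-(2 * (x * n)))
          linarith
      _ = Real.exp (-(n * Real.log 2) - 2 * (x * n)) := by
          rw [← hexpl, ← Real.exp_add]; congr 1; ring
      _ ≤ _ := Real.exp_le_exp.2 hlo
  · calc Real.exp (K * Real.log (1 - x)) ≤ Real.exp (-(n * Real.log 2) + x) :=
          Real.exp_le_exp.2 hup
      _ = Real.exp x * (1 / 2 ^ n) := by rw [Real.exp_add, hexpl]; ring
      _ ≤ 2 * (1 / 2 ^ n) := by
          refine mul_le_mul_of_nonneg_right ?_ (by positivity)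
          have h10 : Real.exp x ≤ 1 / (1 - x) := by
            have h11 : 1 - x ≤ Real.exp (-x) := by
              have := Real.add_one_le_exp (-x); linarith
            rw [le_div_iff₀ h1x]
            calc Real.exp x * (1 - x) ≤ Real.exp x * Real.exp (-x) :=
                  mul_le_mul_of_nonneg_left h11 (Real.exp_pos _).le
              _ = 1 := by rw [← Real.exp_add, add_neg_cancel, Real.exp_zero]
          linarith

/-! ### The blocks -/

/-- The block of the oracle that decides membership of `x`. -/
noncomputable def cblk (x : List Bool) (p : Fin (cnum x.length) × Fin (clen x.length)) :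
    List Bool := code x (str p.1) p.2

lemma cblk_injective (x : List Bool) : Function.Injective (cblk x) := by
  rintro ⟨y, i⟩ ⟨y', i'⟩ h
  obtain ⟨-, h1, h2⟩ := code_injective h
  exact Prod.ext (Fin.ext (str_injective h1)) (Fin.ext h2)

lemma mem_colang_fill (x : List Bool) (ω : List Bool → Bool)
    (g : Fin (cnum x.length) → Fin (clen x.length) → Bool) :
    x ∈ colang (fill (cblk x) ω g) ↔ g ∈ wf (fun _ : Fin (clen x.length) => true) := by
  have hinj := cblk_injective x
  rw [← not_iff_not]
  unfold colang
  rw [mem_wf]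
  simp only [Set.mem_ofPred_eq, not_not]
  push Not
  constructor
  · rintro ⟨y, hy, h⟩
    refine ⟨⟨rk y, hy⟩, funext fun i => ?_⟩
    have h1 := h i i.2
    have h2 : code x y i = cblk x (⟨rk y, hy⟩, i) := by
      rw [cblk, str_rk]
    rw [h2, fill_block _ hinj] at h1
    exact h1
  · rintro ⟨y, hy⟩
    refine ⟨str y, by rw [rk_str]; exact y.2, fun i hi => ?_⟩
    have h2 : code x (str y) i = cblk x (y, ⟨i, hi⟩) := rfl
    rw [h2, fill_block _ hinj, hy]

lemma mem_colang_fill_ne {x x' : List Bool} (hne : x' ≠ x) (ω : List Bool → Bool)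
    (g : Fin (cnum x.length) → Fin (clen x.length) → Bool) :
    x' ∈ colang (fill (cblk x) ω g) ↔ x' ∈ colang ω := by
  have h : ∀ (y : List Bool) (i : ℕ),
      fill (cblk x) ω g (code x' y i) = ω (code x' y i) := by
    intro y i
    refine fill_off _ _ _ fun p hp => ?_
    exact hne (code_injective hp).1.symm
  unfold colang
  simp only [Set.mem_ofPred_eq, h]

lemma card_bits_ge (n : ℕ) : 2 ≤ Fintype.card (Fin (clen n) → Bool) := by
  simp only [Fintype.card_pi, Fintype.card_bool, Finset.prod_const, Finset.card_univ,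
    Fintype.card_fin]
  calc 2 = 2 ^ 1 := rfl
    _ ≤ 2 ^ clen n := Nat.pow_le_pow_right (by norm_num) (by unfold clen; omega)

/-- The proportion of witness-free tables. -/
lemma card_wf {Y I : Type} [Fintype Y] [DecidableEq Y] [Fintype I] [DecidableEq I]
    (hK : 2 ≤ Fintype.card (I → Bool)) (o : I → Bool) :
    ((wf (Y := Y) o).card : ℝ) * (1 + wq (I → Bool)) ^ Fintype.card Y =
      Fintype.card (Y → I → Bool) := by
  have := sum_eq_plant (Y := Y) o hK (fun _ => (1 : ℝ))
  simp only [mul_one, sum_wq] at this
  rw [Finset.sum_const, Finset.sum_const, Finset.card_univ, nsmul_eq_mul, nsmul_eq_mul,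
    mul_one] at this
  exact this.symm

/-- Membership of `x` is independent of what does not depend on the block of `x`. -/
lemma prob_not_mem (x : List Bool) {σ : Set (List Bool → Bool)} (hσ : MeasurableSet σ)
    (hσ' : ∀ ω g, fill (cblk x) ω g ∈ σ ↔ ω ∈ σ) :
    (coins (List Bool)).real (σ ∩ {ω | x ∉ colang ω}) =
      (1 - cden x.length) * (coins (List Bool)).real σ := by
  classical
  have he := cblk_injective x
  have hD : MeasurableSet {ω : List Bool → Bool | x ∉ colang ω} :=
    (measurableSet_colang x).compl
  have hK := card_bits_ge x.length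
  set N : ℝ := (Fintype.card (Fin (cnum x.length) → Fin (clen x.length) → Bool) : ℝ) with hN
  have hNpos : 0 < N := by
    rw [hN]; exact_mod_cast Fintype.card_pos
  set o : Fin (clen x.length) → Bool := fun _ => true with ho
  have hwf : ((wf (Y := Fin (cnum x.length)) o).card : ℝ) = N * cden x.length := by
    have h1 := card_wf (Y := Fin (cnum x.length)) hK o
    rw [Fintype.card_fin] at h1
    have hpos : 0 < (1 + wq (Fin (clen x.length) → Bool)) ^ cnum x.length := by
      have := wq_pos (Z := Fin (clen x.length) → Bool) hK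
      positivity
    rw [cden, hN, ← h1]
    field_simp
  have h1 := resample (κ := List Bool) (cblk x) he
    (F := (σ ∩ {ω | x ∉ colang ω}).indicator fun _ => (1 : ℝ))
    ((integrable_const 1).indicator (hσ.inter hD))
  rw [integral_indicator (hσ.inter hD)] at h1
  simp only [integral_const, measureReal_restrict_apply_univ, smul_eq_mul, mul_one] at h1
  have h2 : ∀ ω, ∑ g : Fin (cnum x.length) → Fin (clen x.length) → Bool,
      (σ ∩ {ω | x ∉ colang ω}).indicator (fun _ => (1 : ℝ)) (fill (cblk x) ω g) =
      σ.indicator (fun _ => N * (1 - cden x.length)) ω := by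
    intro ω
    by_cases hω : ω ∈ σ
    · rw [Set.indicator_of_mem hω]
      have h3 : ∀ g : Fin (cnum x.length) → Fin (clen x.length) → Bool,
          (σ ∩ {ω | x ∉ colang ω}).indicator (fun _ => (1 : ℝ)) (fill (cblk x) ω g) =
          1 - if g ∈ wf o then 1 else 0 := by
        intro g
        by_cases hg : g ∈ wf o
        · rw [if_pos hg, Set.indicator_of_notMem]
          · norm_num
          · rintro ⟨-, h4⟩
            exact h4 ((mem_colang_fill x ω g).2 hg)
        · rw [if_neg hg, Set.indicator_of_mem, sub_zero]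
          exact ⟨(hσ' ω g).2 hω, fun h4 => hg ((mem_colang_fill x ω g).1 h4)⟩
      simp only [h3, Finset.sum_sub_distrib, Finset.sum_const, Finset.card_univ, nsmul_eq_mul,
        mul_one]
      rw [← Finset.sum_filter, Finset.filter_mem_eq_inter, Finset.univ_inter, Finset.sum_const,
        nsmul_eq_mul, mul_one, hwf, ← hN]
      ring
    · rw [Set.indicator_of_notMem hω]
      refine Finset.sum_eq_zero fun g _ => Set.indicator_of_notMem ?_ _
      exact fun h => hω ((hσ' ω g).1 h.1)
  simp only [h2] at h1
  rw [integral_indicator hσ] at h1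
  simp only [integral_const, measureReal_restrict_apply_univ, smul_eq_mul] at h1
  rw [← hN] at h1
  have h5 : N * (coins (List Bool)).real (σ ∩ {ω | x ∉ colang ω}) =
      N * ((1 - cden x.length) * (coins (List Bool)).real σ) := by
    rw [h1]; ring
  exact mul_left_cancel₀ hNpos.ne' h5

/-- The language is infinite. -/
theorem colang_infinite : ∀ᵐ A ∂(coins (List Bool)), (colang A).Infinite := by
  set P : ℕ → ℕ → Set (List Bool → Bool) := fun a b =>
    {ω | ∀ N, a ≤ N → N < b → str N ∉ colang ω} with hP
  have hPm : ∀ a b, MeasurableSet (P a b) := by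
    intro a b
    have : P a b = ⋂ N, {ω | a ≤ N → N < b → str N ∉ colang ω} := by
      ext ω; simp [hP]
    rw [this]
    refine MeasurableSet.iInter fun N => ?_
    by_cases h1 : a ≤ N
    · by_cases h2 : N < b
      · simp only [h1, h2, true_implies]
        exact (measurableSet_colang (str N)).compl
      · simp [h2]
    · simp [h1]
  have hle : ∀ a k, (coins (List Bool)).real (P a (a + k)) ≤
      ∏ i ∈ Finset.range k, (1 - cden (str (a + i)).length) := by
    intro a k
    induction k with
    | zero => simp
    | succ k ih =>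
      have h1 : P a (a + (k + 1)) = P a (a + k) ∩ {ω | str (a + k) ∉ colang ω} := by
        ext ω
        simp only [hP, Set.mem_ofPred_eq, Set.mem_inter_iff]
        constructor
        · intro h
          exact ⟨fun N h1 h2 => h N h1 (by omega), h (a + k) (by omega) (by omega)⟩
        · rintro ⟨h1, h2⟩ N h3 h4
          by_cases h5 : N = a + k
          · rw [h5]; exact h2
          · exact h1 N h3 (by omega)
      rw [h1, prob_not_mem (str (a + k)) (hPm a (a + k)), Finset.prod_range_succ, mul_comm]
      · have h2 := (cden_bounds (str (a + k)).length).2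
        have h3 : 0 ≤ 1 - cden (str (a + k)).length := by
          by_contra hlt
          push Not at hlt
          -- the density is a probability
          have h4 : cden (str (a + k)).length ≤ 1 := by
            rw [cden]
            rw [div_le_one]
            · refine one_le_pow₀ ?_
              have := wq_pos (Z := Fin (clen (str (a + k)).length) → Bool) (card_bits_ge _)
              linarith
            · have := wq_pos (Z := Fin (clen (str (a + k)).length) → Bool) (card_bits_ge _)
              positivity
          linarith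
        exact mul_le_mul_of_nonneg_right ih h3
      · intro ω g
        simp only [hP, Set.mem_ofPred_eq]
        refine forall_congr' fun N => forall_congr' fun h2 => forall_congr' fun h3 => ?_
        rw [mem_colang_fill_ne]
        intro h4
        have : N = a + k := by rw [← rk_str N, h4, rk_str]
        omega
  -- the product tends to zero
  have hden : ∀ N : ℕ, 1 / 4 * (1 / ((N : ℝ) + 1)) ≤ cden (str N).length := by
    intro N
    have h1 := (cden_bounds (str N).length).1
    have h2 := le_rk (str N)
    rw [rk_str] at h2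
    have h3 : ((2 : ℝ) ^ (str N).length) ≤ (N : ℝ) + 1 := by exact_mod_cast h2
    have h4 : 1 / ((N : ℝ) + 1) ≤ 1 / 2 ^ (str N).length := by
      exact one_div_le_one_div_of_le (by positivity) h3
    have h5 : (0 : ℝ) < 1 / 2 ^ (str N).length := by positivity
    linarith
  have hexp : ∀ a k, (coins (List Bool)).real (P a (a + k)) ≤
      Real.exp (-(1 / 4 * ∑ i ∈ Finset.range k, 1 / (((a + i : ℕ) : ℝ) + 1))) := by
    intro a k
    refine (hle a k).trans ?_
    rw [← neg_mul, Finset.mul_sum, Real.exp_sum]
    refine Finset.prod_le_prod (fun i _ => ?_) fun i _ => ?_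
    · rw [sub_nonneg, cden, div_le_one]
      · refine one_le_pow₀ ?_
        have := wq_pos (Z := Fin (clen (str (a + i)).length) → Bool) (card_bits_ge _)
        linarith
      · have := wq_pos (Z := Fin (clen (str (a + i)).length) → Bool) (card_bits_ge _)
        positivity
    · have h1 := hden (a + i)
      have h2 := Real.add_one_le_exp (-(1 / 4) * (1 / (((a + i : ℕ) : ℝ) + 1)))
      linarith
  have hzero : ∀ a, (coins (List Bool)) {ω | ∀ N, a ≤ N → str N ∉ colang ω} = 0 := by
    intro a
    have hdiv : Tendsto (fun k => ∑ i ∈ Finset.range k, 1 / (((a + i : ℕ) : ℝ) + 1)) atTop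
        atTop := by
      have h1 : ¬ Summable fun i : ℕ => 1 / (((a + i : ℕ) : ℝ) + 1) := by
        intro h
        have h2 : Summable fun i : ℕ => (1 : ℝ) / ((i + (a + 1) : ℕ) : ℝ) := by
          refine h.congr fun i => ?_
          congr 1
          push_cast
          ring
        exact Real.not_summable_one_div_natCast ((summable_nat_add_iff (a + 1)).1 h2)
      exact (not_summable_iff_tendsto_nat_atTop_of_nonneg (fun i => by positivity)).1 h1
    have hlim : Tendsto (fun k => Real.exp (-(1 / 4 *
        ∑ i ∈ Finset.range k, 1 / (((a + i : ℕ) : ℝ) + 1)))) atTop (𝓝 0) :=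
      Real.tendsto_exp_neg_atTop_nhds_zero.comp (hdiv.const_mul_atTop (by norm_num))
    have hsub : ∀ k, (coins (List Bool)).real {ω | ∀ N, a ≤ N → str N ∉ colang ω} ≤
        Real.exp (-(1 / 4 * ∑ i ∈ Finset.range k, 1 / (((a + i : ℕ) : ℝ) + 1))) := by
      intro k
      refine le_trans (measureReal_mono ?_) (hexp a k)
      intro ω hω N h1 _
      exact hω N h1
    have h0 : (coins (List Bool)).real {ω | ∀ N, a ≤ N → str N ∉ colang ω} ≤ 0 :=
      ge_of_tendsto hlim (Eventually.of_forall hsub)
    have h1 : (coins (List Bool)).real {ω | ∀ N, a ≤ N → str N ∉ colang ω} = 0 :=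
      le_antisymm h0 measureReal_nonneg
    rwa [measureReal_eq_zero_iff] at h1
  have hall : ∀ᵐ A ∂(coins (List Bool)), ∀ a, ¬ ∀ N, a ≤ N → str N ∉ colang A := by
    rw [ae_all_iff]
    intro a
    rw [ae_iff]
    simpa using hzero a
  filter_upwards [hall] with A hA
  have h1 : {N | str N ∈ colang A}.Infinite := by
    rw [← Nat.frequently_atTop_iff_infinite, frequently_atTop]
    intro a
    have := hA a
    push Not at this
    obtain ⟨N, h1, h2⟩ := this
    exact ⟨N, h1, h2⟩
  have h2 : str '' {N | str N ∈ colang A} ⊆ colang A := by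
    rintro x ⟨N, hN, rfl⟩
    exact hN
  exact (h1.image str_injective.injOn).mono h2

end Pool.Agent.H17.QM
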