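import Mathlib

/-!
# The finite combinatorial core of the immunity theorem
-/

set_option autoImplicit false

namespace Pool.Agent.H17.QM

section Rows

variable {X Y : Type*} [Fintype X] [DecidableEq X] [Fintype Y] [DecidableEq Y]

/-- Remove row `x` from `W`. -/
def clr (W : Finset (X × Y)) (x : X) : Finset (X × Y) := W.filter fun p => p.1 ≠ x

/-- Add the elements `(x, y)`, `y ∈ U`. -/
def addRow (V : Finset (X × Y)) (x : X) (U : Finset Y) : Finset (X × Y) :=
  V ∪ U.map ⟨Prod.mk x, Prod.mk_right_injective x⟩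

/-- The sets with empty row `x`. -/
def noRow (Y : Type*) [Fintype Y] [DecidableEq Y] (x : X) : Finset (Finset (X × Y)) :=
  Finset.univ.filter fun V => ∀ y, (x, y) ∉ V

lemma mem_noRow {x : X} {V : Finset (X × Y)} : V ∈ noRow Y x ↔ ∀ y, (x, y) ∉ V := by
  simp [noRow]

lemma mem_clr {W : Finset (X × Y)} {x : X} {p : X × Y} : p ∈ clr W x ↔ p ∈ W ∧ p.1 ≠ x := by
  simp [clr]

lemma clr_mem_noRow (W : Finset (X × Y)) (x : X) : clr W x ∈ noRow Y x := by
  rw [mem_noRow]
  intro y hy
  exact (mem_clr.1 hy).2 rfl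

lemma mem_addRow {V : Finset (X × Y)} {x : X} {U : Finset Y} {p : X × Y} :
    p ∈ addRow V x U ↔ p ∈ V ∨ (p.1 = x ∧ p.2 ∈ U) := by
  simp only [addRow, Finset.mem_union, Finset.mem_map, Function.Embedding.coeFn_mk]
  constructor
  · rintro (h | ⟨y, hy, rfl⟩)
    · exact Or.inl h
    · exact Or.inr ⟨rfl, hy⟩
  · rintro (h | ⟨h1, h2⟩)
    · exact Or.inl h
    · exact Or.inr ⟨p.2, h2, by rw [← h1]⟩

lemma card_addRow {V : Finset (X × Y)} {x : X} (hV : V ∈ noRow Y x) (U : Finset Y) :
    (addRow V x U).card = V.card + U.card := by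
  rw [addRow, Finset.card_union_of_disjoint, Finset.card_map]
  rw [Finset.disjoint_left]
  intro p hp hp'
  rw [Finset.mem_map] at hp'
  obtain ⟨y, _, rfl⟩ := hp'
  exact mem_noRow.1 hV y hp

lemma clr_addRow {V : Finset (X × Y)} {x : X} (hV : V ∈ noRow Y x) (U : Finset Y) :
    clr (addRow V x U) x = V := by
  ext p
  rw [mem_clr, mem_addRow]
  constructor
  · rintro ⟨h | h, h2⟩
    · exact h
    · exact absurd h.1 h2
  · intro h
    refine ⟨Or.inl h, ?_⟩
    rintro rfl
    exact mem_noRow.1 hV p.2 h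

lemma addRow_clr (W : Finset (X × Y)) (x : X) :
    addRow (clr W x) x (Finset.univ.filter fun y => (x, y) ∈ W) = W := by
  ext p
  rw [mem_addRow, mem_clr]
  constructor
  · rintro (h | ⟨rfl, h2⟩)
    · exact h.1
    · simpa using h2
  · intro h
    by_cases hp : p.1 = x
    · refine Or.inr ⟨hp, ?_⟩
      simp [← hp, h]
    · exact Or.inl ⟨h, hp⟩

/-- Every set is uniquely a set with empty row `x` plus a row. -/
lemma sum_rows (x : X) (F : Finset (X × Y) → ℝ) :
    ∑ W : Finset (X × Y), F W = ∑ V ∈ noRow Y x, ∑ U : Finset Y, F (addRow V x U) := by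
  rw [← Finset.sum_product']
  refine Finset.sum_nbij' (fun W => (clr W x, Finset.univ.filter fun y => (x, y) ∈ W))
    (fun q => addRow q.1 x q.2) ?_ ?_ ?_ ?_ ?_
  · intro W _
    rw [Finset.mem_product]
    exact ⟨clr_mem_noRow W x, Finset.mem_univ _⟩
  · intro q _
    exact Finset.mem_univ _
  · intro W _
    exact addRow_clr W x
  · intro q hq
    rw [Finset.mem_product] at hq
    refine Prod.ext (clr_addRow hq.1 q.2) ?_
    ext y
    simp only [Finset.mem_filter, Finset.mem_univ, true_and, mem_addRow]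
    constructor
    · rintro (h | h)
      · exact absurd h (mem_noRow.1 hq.1 y)
      · exact h
    · exact Or.inr
  · intro W _
    rw [addRow_clr]

lemma sum_pow_card' (Z : Type*) [Fintype Z] [DecidableEq Z] (w : ℝ) :
    ∑ W : Finset Z, w ^ W.card = (1 + w) ^ Fintype.card Z := by
  have := Fintype.sum_pow_mul_eq_add_pow Z w 1
  simp only [one_pow, mul_one] at this
  rw [this, add_comm]

lemma sum_clr (x : X) (w : ℝ) (f : Finset (X × Y) → ℝ) :
    ∑ W : Finset (X × Y), w ^ W.card * f (clr W x) =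
      (1 + w) ^ Fintype.card Y * ∑ V ∈ noRow Y x, w ^ V.card * f V := by
  rw [sum_rows x, Finset.mul_sum]
  refine Finset.sum_congr rfl fun V hV => ?_
  have : ∀ U : Finset Y, w ^ (addRow V x U).card * f (clr (addRow V x U) x) =
      (w ^ V.card * f V) * w ^ U.card := by
    intro U
    rw [card_addRow hV, clr_addRow hV, pow_add]; ring
  simp only [this]
  rw [← Finset.mul_sum, sum_pow_card']
  ring

end Rows

/-- The abstract immunity estimate. -/
theorem core {X Y : Type*} [Fintype X] [DecidableEq X] [Fintype Y] [DecidableEq Y]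
    (Ψ : X → Type*) (p : ∀ x, Ψ x → Finset (X × Y) → ℝ) {w : ℝ} (hw : 0 ≤ w) {α β : ℝ}
    (hαβ : β < α) {η N0 : ℝ} (hη : 0 ≤ η) (hN0 : 0 ≤ N0)
    (hplant : ∀ x ψ, ∀ V ∈ noRow Y x, ∑ U : Finset Y, w ^ U.card *
      |p x ψ (addRow V x U) - p x ψ V| ≤ η * (1 + w) ^ Fintype.card Y)
    (hclear : ∀ x'' ψ W (D : Finset X),
      (∀ x ∈ D, 3 / 4 * (α - β) ≤ |p x'' ψ W - p x'' ψ (clr W x)|) → (D.card : ℝ) ≤ N0) :
    ∑ W : Finset (X × Y), w ^ W.card * (open Classical in
      if ∃ x, (∀ y, (x, y) ∉ W) ∧ (∃ ψ, α ≤ p x ψ W) ∧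
        ∀ x'', (∃ y, (x'', y) ∈ W) → ∀ ψ, p x'' ψ W ≤ β then (1 : ℝ) else 0) ≤
      1 / (1 + w) ^ Fintype.card Y *
        (Fintype.card X * (1 / (1 + w) ^ Fintype.card Y) + 1 + N0 +
          Fintype.card X * (η * (4 / (α - β)))) * (1 + w) ^ (Fintype.card X * Fintype.card Y) := by
  classical
  set Z : ℝ := (1 + w) ^ Fintype.card Y with hZ
  set Zt : ℝ := (1 + w) ^ (Fintype.card X * Fintype.card Y) with hZt
  have hZpos : 0 < Z := by positivity
  set γ : ℝ := (α - β) / 4 with hγ
  have hγpos : 0 < γ := by rw [hγ]; linarith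
  have hγinv : 4 / (α - β) = 1 / γ := by rw [hγ]; field_simp
  -- the event for one string
  let Φ : X → Finset (X × Y) → Prop := fun x W => (∃ ψ, α ≤ p x ψ W) ∧
    ∀ x'', x'' ≠ x → (∃ y, (x'', y) ∈ W) → ∀ ψ, p x'' ψ W ≤ β
  have hstep1 : ∀ W : Finset (X × Y),
      (if ∃ x, (∀ y, (x, y) ∉ W) ∧ (∃ ψ, α ≤ p x ψ W) ∧
        ∀ x'', (∃ y, (x'', y) ∈ W) → ∀ ψ, p x'' ψ W ≤ β then (1 : ℝ) else 0) ≤
      ∑ x, if (∀ y, (x, y) ∉ W) ∧ Φ x W then (1 : ℝ) else 0 := by
    intro W
    have hnn : ∀ x, (0 : ℝ) ≤ if (∀ y, (x, y) ∉ W) ∧ Φ x W then (1 : ℝ) else 0 := by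
      intro x; split_ifs <;> norm_num
    split_ifs with h
    · obtain ⟨x, h1, h2, h3⟩ := h
      refine le_trans ?_ (Finset.single_le_sum (fun x _ => hnn x) (Finset.mem_univ x))
      rw [if_pos ⟨h1, h2, fun x'' _ h4 => h3 x'' h4⟩]
    · exact Finset.sum_nonneg fun x _ => hnn x
  have hstep2 : ∀ x, ∑ W : Finset (X × Y), w ^ W.card *
      (if (∀ y, (x, y) ∉ W) ∧ Φ x W then (1 : ℝ) else 0) =
      1 / Z * ∑ W : Finset (X × Y), w ^ W.card * (if Φ x (clr W x) then (1 : ℝ) else 0) := by
    intro x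
    rw [sum_clr x w fun W => if Φ x W then (1 : ℝ) else 0, ← mul_assoc,
      one_div_mul_cancel hZpos.ne', one_mul, noRow, Finset.sum_filter]
    refine Finset.sum_congr rfl fun W _ => ?_
    by_cases h1 : ∀ y, (x, y) ∉ W
    · simp [h1]
    · simp [h1]
  -- the chosen witness
  have hchoose : ∀ x (V : Finset (X × Y)), ∃ ρ : Option (Ψ x), ∀ ψ, α ≤ p x ψ V →
      ∃ ψ', ρ = some ψ' ∧ α ≤ p x ψ' V := by
    intro x V
    by_cases h : ∃ ψ, α ≤ p x ψ V
    · obtain ⟨ψ', h'⟩ := h
      exact ⟨some ψ', fun ψ _ => ⟨ψ', rfl, h'⟩⟩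
    · exact ⟨none, fun ψ hψ => absurd ⟨ψ, hψ⟩ h⟩
  choose ρ hρ using hchoose
  -- the noticed event
  let Nt : X → Finset (X × Y) → Prop := fun x W =>
    ∃ ψ, ρ x (clr W x) = some ψ ∧ α ≤ p x ψ (clr W x) ∧ p x ψ W < α - γ
  -- pointwise bound
  have hpoint : ∀ W : Finset (X × Y), ∑ x, (if Φ x (clr W x) then (1 : ℝ) else 0) ≤
      (∑ x, if (∀ y, (x, y) ∉ W) then (1 : ℝ) else 0) + 1 + N0 +
        ∑ x, if Nt x W then (1 : ℝ) else 0 := by
    intro W
    set D : Finset X := Finset.univ.filter fun x => Φ x (clr W x) ∧ ¬ (∀ y, (x, y) ∉ W) ∧ ¬ Nt x W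
      with hD
    have hDcard : (D.card : ℝ) ≤ 1 + N0 := by
      rcases D.eq_empty_or_nonempty with h | ⟨x0, hx0⟩
      · rw [h, Finset.card_empty, Nat.cast_zero]; linarith
      · have hx0' := (Finset.mem_filter.1 hx0).2
        obtain ⟨⟨⟨ψ0, hψ0⟩, -⟩, hrow, hnt⟩ := hx0'
        obtain ⟨ψ, hψ1, hψ2⟩ := hρ x0 (clr W x0) ψ0 hψ0
        have hψ3 : α - γ ≤ p x0 ψ W := by
          by_contra hlt
          exact hnt ⟨ψ, hψ1, hψ2, not_le.1 hlt⟩
        have h1 := hclear x0 ψ W (D.erase x0) fun x hx => ?_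
        · have h2 : D.card = (D.erase x0).card + 1 := (Finset.card_erase_add_one hx0).symm
          rw [h2]; push_cast; linarith
        · have hx1 := Finset.ne_of_mem_erase hx
          have hx2 := (Finset.mem_filter.1 (Finset.mem_of_mem_erase hx)).2
          have h3 : p x0 ψ (clr W x) ≤ β := by
            refine hx2.1.2 x0 (Ne.symm hx1) ?_ ψ
            push Not at hrow
            obtain ⟨y, hy⟩ := hrow
            exact ⟨y, mem_clr.2 ⟨hy, Ne.symm hx1⟩⟩
          refine le_trans ?_ (le_abs_self _)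
          rw [hγ] at hψ3
          linarith
    have hsplit : ∀ x, (if Φ x (clr W x) then (1 : ℝ) else 0) ≤
        (if (∀ y, (x, y) ∉ W) then (1 : ℝ) else 0) + (if x ∈ D then 1 else 0) +
          if Nt x W then (1 : ℝ) else 0 := by
      intro x
      by_cases h1 : Φ x (clr W x)
      · by_cases h2 : ∀ y, (x, y) ∉ W
        · rw [if_pos h1, if_pos h2]
          split_ifs <;> norm_num
        · by_cases h3 : Nt x W
          · rw [if_pos h1, if_pos h3]
            split_ifs <;> norm_num
          · have : x ∈ D := by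
              rw [hD, Finset.mem_filter]
              exact ⟨Finset.mem_univ _, h1, h2, h3⟩
            rw [if_pos h1, if_pos this]
            split_ifs <;> norm_num
      · rw [if_neg h1]
        split_ifs <;> norm_num
    calc ∑ x, (if Φ x (clr W x) then (1 : ℝ) else 0)
        ≤ ∑ x, ((if (∀ y, (x, y) ∉ W) then (1 : ℝ) else 0) + (if x ∈ D then 1 else 0) +
          if Nt x W then (1 : ℝ) else 0) := Finset.sum_le_sum fun x _ => hsplit x
      _ = (∑ x, if (∀ y, (x, y) ∉ W) then (1 : ℝ) else 0) + D.card +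
          ∑ x, if Nt x W then (1 : ℝ) else 0 := by
          rw [Finset.sum_add_distrib, Finset.sum_add_distrib]
          congr 2
          rw [← Finset.sum_filter, Finset.filter_mem_eq_inter, Finset.univ_inter]
          simp
      _ ≤ _ := by linarith
  -- the three sums
  have hZtsum : ∑ W : Finset (X × Y), w ^ W.card = Zt := by
    rw [sum_pow_card', Fintype.card_prod]
  have hsumV : ∀ x : X, ∑ V ∈ noRow Y x, w ^ V.card = 1 / Z * Zt := by
    intro x
    have := sum_clr (Y := Y) x w fun _ => (1 : ℝ)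
    simp only [mul_one] at this
    rw [← hZtsum, this, ← mul_assoc, one_div_mul_cancel hZpos.ne', one_mul]
  have hS4 : ∀ x : X, ∑ W : Finset (X × Y), w ^ W.card *
      (if (∀ y, (x, y) ∉ W) then (1 : ℝ) else 0) = 1 / Z * Zt := by
    intro x
    rw [← hsumV x, noRow, Finset.sum_filter]
    refine Finset.sum_congr rfl fun W _ => ?_
    split_ifs <;> simp
  have hS5 : ∀ x : X, ∑ W : Finset (X × Y), w ^ W.card * (if Nt x W then (1 : ℝ) else 0) ≤
      η * (1 / γ) * Zt := by
    intro x
    rw [sum_rows x]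
    have hV : ∀ V ∈ noRow Y x, ∑ U : Finset Y, w ^ (addRow V x U).card *
        (if Nt x (addRow V x U) then (1 : ℝ) else 0) ≤ w ^ V.card * (η * (1 / γ) * Z) := by
      intro V hV
      cases hρV : ρ x V with
      | none =>
        have : ∀ U : Finset Y, ¬ Nt x (addRow V x U) := by
          rintro U ⟨ψ, h1, _⟩
          rw [clr_addRow hV, hρV] at h1
          exact absurd h1 (by simp)
        simp only [this, if_false, mul_zero, Finset.sum_const_zero]
        positivity
      | some ψ =>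
        calc ∑ U : Finset Y, w ^ (addRow V x U).card *
            (if Nt x (addRow V x U) then (1 : ℝ) else 0)
            ≤ ∑ U : Finset Y, w ^ V.card * (1 / γ * (w ^ U.card *
                |p x ψ (addRow V x U) - p x ψ V|)) := by
              refine Finset.sum_le_sum fun U _ => ?_
              rw [card_addRow hV, pow_add, mul_assoc]
              refine mul_le_mul_of_nonneg_left ?_ (by positivity)
              rw [mul_left_comm]
              refine mul_le_mul_of_nonneg_left ?_ (by positivity)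
              split_ifs with h
              · obtain ⟨ψ', h1, h2, h3⟩ := h
                rw [clr_addRow hV, hρV] at h1
                obtain rfl := Option.some.inj h1
                rw [clr_addRow hV] at h2
                have h4 : γ ≤ |p x ψ (addRow V x U) - p x ψ V| := by
                  rw [abs_sub_comm]
                  refine le_trans ?_ (le_abs_self _)
                  linarith
                rw [one_div, inv_mul_eq_div, le_div_iff₀ hγpos, one_mul]
                exact h4
              · positivity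
          _ = w ^ V.card * (1 / γ * ∑ U : Finset Y, w ^ U.card *
                |p x ψ (addRow V x U) - p x ψ V|) := by
              rw [← Finset.mul_sum, ← Finset.mul_sum]
          _ ≤ w ^ V.card * (1 / γ * (η * Z)) := by
              refine mul_le_mul_of_nonneg_left (mul_le_mul_of_nonneg_left (hplant x ψ V hV)
                (by positivity)) (by positivity)
          _ = _ := by ring
    calc ∑ V ∈ noRow Y x, ∑ U : Finset Y, w ^ (addRow V x U).card *
        (if Nt x (addRow V x U) then (1 : ℝ) else 0)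
        ≤ ∑ V ∈ noRow Y x, w ^ V.card * (η * (1 / γ) * Z) := Finset.sum_le_sum hV
      _ = (1 / Z * Zt) * (η * (1 / γ) * Z) := by rw [← Finset.sum_mul, hsumV]
      _ = η * (1 / γ) * Zt := by field_simp
  calc ∑ W : Finset (X × Y), w ^ W.card *
      (if ∃ x, (∀ y, (x, y) ∉ W) ∧ (∃ ψ, α ≤ p x ψ W) ∧
        ∀ x'', (∃ y, (x'', y) ∈ W) → ∀ ψ, p x'' ψ W ≤ β then (1 : ℝ) else 0)
      ≤ ∑ W : Finset (X × Y), w ^ W.card *
        ∑ x, (if (∀ y, (x, y) ∉ W) ∧ Φ x W then (1 : ℝ) else 0) :=
        Finset.sum_le_sum fun W _ => mul_le_mul_of_nonneg_left (hstep1 W) (by positivity)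
    _ = ∑ x, ∑ W : Finset (X × Y), w ^ W.card *
        (if (∀ y, (x, y) ∉ W) ∧ Φ x W then (1 : ℝ) else 0) := by
        simp only [Finset.mul_sum]
        exact Finset.sum_comm
    _ = 1 / Z * ∑ W : Finset (X × Y), w ^ W.card *
        ∑ x, (if Φ x (clr W x) then (1 : ℝ) else 0) := by
        simp only [hstep2]
        rw [← Finset.mul_sum]
        congr 1
        simp only [Finset.mul_sum]
        exact Finset.sum_comm
    _ ≤ 1 / Z * ∑ W : Finset (X × Y), w ^ W.card *
        ((∑ x, if (∀ y, (x, y) ∉ W) then (1 : ℝ) else 0) + 1 + N0 +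
        ∑ x, if Nt x W then (1 : ℝ) else 0) := by
        refine mul_le_mul_of_nonneg_left (Finset.sum_le_sum fun W _ =>
          mul_le_mul_of_nonneg_left (hpoint W) (by positivity)) (by positivity)
    _ = 1 / Z * ((∑ x, ∑ W : Finset (X × Y), w ^ W.card *
          (if (∀ y, (x, y) ∉ W) then (1 : ℝ) else 0)) + (1 + N0) * Zt +
          ∑ x, ∑ W : Finset (X × Y), w ^ W.card * (if Nt x W then (1 : ℝ) else 0)) := by
        congr 1
        have e1 : ∑ x, ∑ W : Finset (X × Y), w ^ W.card *
            (if (∀ y, (x, y) ∉ W) then (1 : ℝ) else 0) =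
            ∑ W : Finset (X × Y), w ^ W.card *
              ∑ x, (if (∀ y, (x, y) ∉ W) then (1 : ℝ) else 0) := by
          simp only [Finset.mul_sum]
          exact Finset.sum_comm
        have e2 : ∑ x, ∑ W : Finset (X × Y), w ^ W.card * (if Nt x W then (1 : ℝ) else 0) =
            ∑ W : Finset (X × Y), w ^ W.card * ∑ x, (if Nt x W then (1 : ℝ) else 0) := by
          simp only [Finset.mul_sum]
          exact Finset.sum_comm
        rw [e1, e2, ← hZtsum, Finset.mul_sum, ← Finset.sum_add_distrib, ← Finset.sum_add_distrib]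
        refine Finset.sum_congr rfl fun W _ => ?_
        ring
    _ ≤ 1 / Z * ((∑ _x : X, 1 / Z * Zt) + (1 + N0) * Zt + ∑ _x : X, η * (1 / γ) * Zt) := by
        refine mul_le_mul_of_nonneg_left (add_le_add (add_le_add ?_ le_rfl) ?_) (by positivity)
        · exact (Finset.sum_congr rfl fun x _ => hS4 x).le
        · exact Finset.sum_le_sum fun x _ => hS5 x
    _ = _ := by
        rw [hγinv]
        simp only [Finset.sum_const, Finset.card_univ, nsmul_eq_mul]
        ring

end Pool.Agent.H17.QM
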