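import Pool.Agent.H17.QI.Defs
import Pool.Agent.H17.QI.Core
import Pool.Agent.H17.QM.Perturb
import Pool.Agent.H17.QM.Strings

/-!
# Quantum verifiers on the blocks of one length
-/

set_option autoImplicit false

namespace Pool.Agent.H17.QM

open MeasureTheory

section

variable {κ X Y I : Type} [Fintype X] [DecidableEq X] [Fintype Y] [DecidableEq Y] [Fintype I]
  [DecidableEq I] {e : (X × Y) × I → κ}

lemma fill_addRow (he : Function.Injective e) (o : I → Bool) (ω : κ → Bool)
    (g : X × Y → I → Bool) (x : X) {V : Finset (X × Y)} (hV : ∀ y, (x, y) ∉ V) (U : Finset Y) :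
    fill (fun q : Y × I => e ((x, q.1), q.2)) (fill e ω (plant o g V))
      (plant o (fun y => g (x, y)) U) = fill e ω (plant o g (addRow V x U)) := by
  have hex : Function.Injective fun q : Y × I => e ((x, q.1), q.2) := by
    intro q q' h
    have := he h
    simp only [Prod.mk.injEq, true_and] at this
    exact Prod.ext this.1 this.2
  have hmem : ∀ p : X × Y, p ∈ addRow V x U ↔ p ∈ V ∨ (p.1 = x ∧ p.2 ∈ U) := fun p => by
    simp only [addRow, Finset.mem_union, Finset.mem_map, Function.Embedding.coeFn_mk]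
    constructor
    · rintro (h | ⟨y, hy, rfl⟩)
      · exact Or.inl h
      · exact Or.inr ⟨rfl, hy⟩
    · rintro (h | ⟨h1, h2⟩)
      · exact Or.inl h
      · exact Or.inr ⟨p.2, h2, by rw [← h1]⟩
  funext s
  by_cases hs : ∃ p, e p = s
  · obtain ⟨⟨⟨x', y⟩, i⟩, rfl⟩ := hs
    rw [fill_block e he]
    by_cases hx : x' = x
    · subst hx
      have h1 := fill_block (fun q : Y × I => e ((x', q.1), q.2)) hex
        (fill e ω (plant o g V)) (plant o (fun y => g (x', y)) U) y i
      simp only at h1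
      rw [h1]
      unfold plant
      by_cases hy : y ∈ U
      · rw [if_pos hy, if_pos ((hmem _).2 (Or.inr ⟨rfl, hy⟩))]
      · rw [if_neg hy, if_neg]
        intro h
        rcases (hmem _).1 h with h | h
        · exact hV y h
        · exact hy h.2
    · rw [fill_off _ _ _ (fun q hq => ?_), fill_block e he]
      · unfold plant
        by_cases hy : (x', y) ∈ V
        · rw [if_pos hy, if_pos ((hmem _).2 (Or.inl hy))]
        · rw [if_neg hy, if_neg]
          intro h
          rcases (hmem _).1 h with h | h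
          · exact hy h
          · exact hx h.1
      · have := he hq
        simp only [Prod.mk.injEq] at this
        exact hx this.1.1.symm
  · rw [fill_off _ _ _ (fun q hq => hs ⟨_, hq⟩), fill_off _ _ _ fun q hq => hs ⟨_, hq⟩,
      fill_off _ _ _ fun q hq => hs ⟨_, hq⟩]

lemma fill_row_self (he : Function.Injective e) (ω : κ → Bool) (h : X × Y → I → Bool) (x : X) :
    fill (fun q : Y × I => e ((x, q.1), q.2)) (fill e ω h) (fun y => h (x, y)) =
      fill e ω h := by
  have hex : Function.Injective fun q : Y × I => e ((x, q.1), q.2) := by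
    intro q q' h
    have := he h
    simp only [Prod.mk.injEq, true_and] at this
    exact Prod.ext this.1 this.2
  funext s
  by_cases hs : ∃ q : Y × I, e ((x, q.1), q.2) = s
  · obtain ⟨⟨y, i⟩, rfl⟩ := hs
    have h1 := fill_block (fun q : Y × I => e ((x, q.1), q.2)) hex
        (fill e ω h) (fun y => h (x, y)) y i
    simp only at h1
    rw [h1, fill_block e he]
  · exact fill_off _ _ _ fun q hq => hs ⟨q, hq⟩

/-- Planting in one row is not noticed on average. -/
lemma plant_row (Q : QAlg κ) (he : Function.Injective e) {w : ℝ} (hw : 0 ≤ w) (o : I → Bool)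
    (ω : κ → Bool) (g : X × Y → I → Bool) (x : X) {V : Finset (X × Y)}
    (hV : ∀ y, (x, y) ∉ V) {δ : ℝ} (hδ : 0 < δ) :
    ∑ U : Finset Y, w ^ U.card * |Q.prob (ph (fill e ω (plant o g (addRow V x U)))) -
      Q.prob (ph (fill e ω (plant o g V)))| ≤
        (δ + 4 * (Q.T : ℝ) ^ 2 * w / δ) * (1 + w) ^ Fintype.card Y := by
  have hex : Function.Injective fun q : Y × I => e ((x, q.1), q.2) := by
    intro q q' h
    have := he h
    simp only [Prod.mk.injEq, true_and] at this
    exact Prod.ext this.1 this.2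
  have h1 := Q.sum_abs_prob hex hw o (fill e ω (plant o g V)) (fun y => g (x, y)) hδ
  have h2 : fill (fun q : Y × I => e ((x, q.1), q.2)) (fill e ω (plant o g V))
      (fun y => g (x, y)) = fill e ω (plant o g V) := by
    have h3 := fill_row_self he ω (plant o g V) x
    have h4 : (fun y => plant o g V (x, y)) = fun y => g (x, y) := by
      funext y
      simp [plant, hV y]
    rw [h4] at h3
    exact h3
  rw [h2] at h1
  simp only [fill_addRow he o ω g x hV] at h1
  exact h1

lemma exists_row (he : Function.Injective e) : ∃ row : κ → Option X,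
    ∀ x y i, row (e ((x, y), i)) = some x := by
  classical
  refine ⟨fun s => (Function.partialInv e s).map fun p => p.1.1, fun x y i => ?_⟩
  change Option.map _ (Function.partialInv e (e ((x, y), i))) = some x
  rw [Function.partialInv_left he]
  rfl

/-- Few rows can be cleared with a noticeable effect. -/
lemma clear_rows (Q : QAlg κ) (he : Function.Injective e) (o : I → Bool)
    (ω : κ → Bool) (g : X × Y → I → Bool) (W : Finset (X × Y)) (D : Finset X) {c : ℝ}
    (hc : 0 < c)
    (hD : ∀ x ∈ D, c ≤ |Q.prob (ph (fill e ω (plant o g W))) -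
      Q.prob (ph (fill e ω (plant o g (clr W x))))|) :
    (D.card : ℝ) ≤ 16 * (Q.T : ℝ) ^ 2 / c ^ 2 := by
  classical
  rcases D.eq_empty_or_nonempty with rfl | ⟨x0, hx0⟩
  · simp; positivity
  obtain ⟨row, hrow⟩ := exists_row (X := X) he
  set a := ph (fill e ω (plant o g W)) with ha
  have hkey : ∀ x ∈ D, (c / 2) ^ 2 ≤ 4 * Q.T * ∑ s ∈ Finset.range Q.T,
      Q.wt (Q.rows row x) (Q.state a s) := by
    intro x hx
    set b := ph (fill e ω (plant o g (clr W x))) with hb
    have h1 := hD x hx
    have h2 := Q.abs_prob_sub (ph := b) (ph' := a) (norm_ph _) (norm_ph _)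
    rw [abs_sub_comm] at h2
    have h3 : c / 2 ≤ ‖Q.state b Q.T - Q.state a Q.T‖ := by linarith
    have h4 := Q.norm_state_sub_sq (ph := b) (ph' := a) (norm_ph _) (norm_ph _) Q.T
    have h5 : (c / 2) ^ 2 ≤ ‖Q.state b Q.T - Q.state a Q.T‖ ^ 2 :=
      pow_le_pow_left₀ (by positivity) h3 2
    refine h5.trans (h4.trans ?_)
    refine mul_le_mul_of_nonneg_left (Finset.sum_le_sum fun s _ => Q.wt_mono ?_ _) (by positivity)
    intro i hi
    rw [Q.mem_diff] at hi
    rw [Q.mem_rows]
    unfold QAlg.phase at hi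
    cases hq : Q.query i with
    | none => rw [hq] at hi; exact absurd rfl hi
    | some s =>
      rw [hq] at hi
      refine ⟨s, rfl, ?_⟩
      by_cases hs : ∃ p, e p = s
      · obtain ⟨⟨⟨x', y⟩, k⟩, rfl⟩ := hs
        rw [hrow]
        by_contra hne
        have hx' : x' ≠ x := fun h => hne (by rw [h])
        apply hi
        simp only [hb, ha, ph, fill_block e he]
        by_cases hW : (x', y) ∈ W
        · have h6 : (x', y) ∈ clr W x := mem_clr.2 ⟨hW, hx'⟩
          simp only [plant, if_pos hW, if_pos h6]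
        · have h6 : (x', y) ∉ clr W x := fun h => hW (mem_clr.1 h).1
          simp only [plant, if_neg hW, if_neg h6]
      · exfalso
        apply hi
        simp only [hb, ha, ph]
        rw [fill_off _ _ _ fun q hq => hs ⟨_, hq⟩, fill_off _ _ _ fun q hq => hs ⟨_, hq⟩]
  have hsum : ∀ s, ∑ x ∈ D, Q.wt (Q.rows row x) (Q.state a s) ≤ 1 := by
    intro s
    refine le_trans (Finset.sum_le_sum_of_subset_of_nonneg (Finset.subset_univ D)
      fun x _ _ => Q.wt_nonneg _ _) ?_
    exact Q.sum_wt_rows (P := X) (S := X) row id (fun x _ => x) (fun _ x x' h => h) x0 _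
      (Q.norm_state (norm_ph _) s)
  have htot : (D.card : ℝ) * (c / 2) ^ 2 ≤ 4 * (Q.T : ℝ) * Q.T := by
    calc (D.card : ℝ) * (c / 2) ^ 2 = ∑ _x ∈ D, (c / 2) ^ 2 := by
          rw [Finset.sum_const, nsmul_eq_mul]
      _ ≤ ∑ x ∈ D, 4 * Q.T * ∑ s ∈ Finset.range Q.T, Q.wt (Q.rows row x) (Q.state a s) :=
          Finset.sum_le_sum hkey
      _ = 4 * Q.T * ∑ s ∈ Finset.range Q.T, ∑ x ∈ D, Q.wt (Q.rows row x) (Q.state a s) := by
          rw [← Finset.mul_sum, Finset.sum_comm]
      _ ≤ 4 * Q.T * ∑ _s ∈ Finset.range Q.T, (1 : ℝ) :=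
          mul_le_mul_of_nonneg_left (Finset.sum_le_sum fun s _ => hsum s) (by positivity)
      _ = 4 * (Q.T : ℝ) * Q.T := by simp
  rw [le_div_iff₀ (by positivity)]
  nlinarith

/-- The weighted estimate for one length, for a fixed witness-free table. -/
lemma length_estimate (he : Function.Injective e) (V : X → QVer κ) (ω : κ → Bool)
    (o : I → Bool) (g : X × Y → I → Bool) {w : ℝ} (hw : 0 ≤ w) {α β : ℝ} (hαβ : β < α)
    {T : ℝ} (hT : ∀ x, ((V x).T : ℝ) ≤ T) (hT0 : 0 ≤ T) {δ : ℝ} (hδ : 0 < δ) :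
    ∑ W : Finset (X × Y), w ^ W.card * (open Classical in
      if ∃ x, (∀ y, (x, y) ∉ W) ∧ (V x).Accepts (ph (fill e ω (plant o g W))) α ∧
        ∀ x'', (∃ y, (x'', y) ∈ W) →
          ∀ ψ, ((V x'').alg ψ).prob (ph (fill e ω (plant o g W))) ≤ β then (1 : ℝ) else 0) ≤
      1 / (1 + w) ^ Fintype.card Y *
        (Fintype.card X * (1 / (1 + w) ^ Fintype.card Y) + 1 + 29 * T ^ 2 / (α - β) ^ 2 +
          Fintype.card X * ((δ + 4 * T ^ 2 * w / δ) * (4 / (α - β)))) *
            (1 + w) ^ (Fintype.card X * Fintype.card Y) := by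
  have h0 : 0 < α - β := by linarith
  refine core (fun x => (V x).wit)
    (fun x ψ W => ((V x).alg ψ).prob (ph (fill e ω (plant o g W)))) hw hαβ
    (by positivity) (by positivity) (fun x ψ V' hV' => ?_) (fun x'' ψ W D hD => ?_)
  · refine (plant_row ((V x).alg ψ) he hw o ω g x (mem_noRow.1 hV') hδ).trans ?_
    refine mul_le_mul_of_nonneg_right ?_ (by positivity)
    have h1 : (((V x).alg ψ).T : ℝ) ^ 2 ≤ T ^ 2 :=
      pow_le_pow_left₀ (Nat.cast_nonneg _) (hT x) 2
    have h2 : 4 * (((V x).alg ψ).T : ℝ) ^ 2 * w / δ ≤ 4 * T ^ 2 * w / δ := by gcongr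
    linarith
  · have h1 := clear_rows ((V x'').alg ψ) he o ω g W D (c := 3 / 4 * (α - β)) (by positivity) hD
    refine h1.trans ?_
    have h2 : (((V x'').alg ψ).T : ℝ) ^ 2 ≤ T ^ 2 :=
      pow_le_pow_left₀ (Nat.cast_nonneg _) (hT x'') 2
    rw [div_le_div_iff₀ (by positivity) (by positivity)]
    have h3 : 0 < (α - β) ^ 2 := by positivity
    have h4 : (((V x'').alg ψ).T : ℝ) ^ 2 * (α - β) ^ 2 ≤ T ^ 2 * (α - β) ^ 2 :=
      mul_le_mul_of_nonneg_right h2 h3.le
    nlinarith

end

end Pool.Agent.H17.QM
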