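import Pool.Agent.H17.QV.Defs

/-!
# Quantum verifiers and the coNP language of a random oracle: definitions
-/

set_option autoImplicit false

namespace Pool.Agent.H17.QM

/-- The number of queries that check a witness for an input of length `n`. -/
def clen (n : ℕ) : ℕ := 3 * n + 2

/-- The number of possible witnesses for an input of length `n`. -/
noncomputable def cnum (n : ℕ) : ℕ := ⌊(2 : ℝ) ^ clen n * (n * Real.log 2)⌋₊

/-- The `coNP^A` language: `x` is a member iff no `y` among the first `cnum |x|` strings is a
witness, where `y` is a witness iff the oracle contains all the strings `code x y i`,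
`i < clen |x|`. -/
def colang (A : List Bool → Bool) : Set (List Bool) :=
  {x | ¬ ∃ y : List Bool, rk y < cnum x.length ∧ ∀ i < clen x.length, A (code x y i) = true}

end Pool.Agent.H17.QM
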