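import Pool.Agent.H17.QI.Immune

/-!
# The coNP language of a random oracle is immune for quantum verifiers: the main theorem
-/

set_option autoImplicit false

namespace Pool.Agent.H17.QM

open MeasureTheory Filter Topology

/-- The block of the strings of length `n`. -/
noncomputable def lblk (n : ℕ) (p : ((Fin n → Bool) × Fin (cnum n)) × Fin (clen n)) :
    List Bool := code (List.ofFn p.1.1) (str p.1.2) p.2

lemma lblk_injective (n : ℕ) : Function.Injective (lblk n) := by
  rintro ⟨⟨v, y⟩, i⟩ ⟨⟨v', y'⟩, i'⟩ h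
  obtain ⟨h0, h1, h2⟩ := code_injective h
  have e0 : v = v' := List.ofFn_injective h0
  have e1 : y = y' := Fin.ext (str_injective h1)
  have e2 : i = i' := Fin.ext h2
  rw [e0, e1, e2]

lemma mem_colang_plant (n : ℕ) (v : Fin n → Bool) (ω : List Bool → Bool)
    {g : (Fin n → Bool) × Fin (cnum n) → Fin (clen n) → Bool}
    (hg : g ∈ wf (fun _ : Fin (clen n) => true)) (W : Finset ((Fin n → Bool) × Fin (cnum n))) :
    List.ofFn v ∈ colang (fill (lblk n) ω (plant (fun _ : Fin (clen n) => true) g W)) ↔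
      ∀ y, (v, y) ∉ W := by
  have hinj := lblk_injective n
  rw [← not_iff_not]
  unfold colang
  simp only [Set.mem_ofPred_eq, not_not, List.length_ofFn]
  push Not
  constructor
  · rintro ⟨y, hy, h⟩
    refine ⟨⟨rk y, hy⟩, ?_⟩
    by_contra hW
    apply (mem_wf _).1 hg (v, ⟨rk y, hy⟩)
    funext i
    have h1 := h i i.2
    have h2 : code (List.ofFn v) y i = lblk n ((v, ⟨rk y, hy⟩), i) := by
      rw [lblk, str_rk]
    rw [h2, fill_block _ hinj, plant, if_neg hW] at h1
    exact h1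
  · rintro ⟨y, hy⟩
    refine ⟨str y, by rw [rk_str]; exact y.2, fun i hi => ?_⟩
    have h2 : code (List.ofFn v) (str y) i = lblk n ((v, y), ⟨i, hi⟩) := rfl
    rw [h2, fill_block _ hinj, plant, if_pos hy]

/-- The event that at length `n` the machine accepts a member but rejects all non-members. -/
def Hev (M : List Bool → QVer (List Bool)) (α β : ℝ) (n : ℕ) : Set (List Bool → Bool) :=
  {A | ∃ v : Fin n → Bool, List.ofFn v ∈ colang A ∧ (M (List.ofFn v)).Accepts (ph A) α ∧
    ∀ v'' : Fin n → Bool, List.ofFn v'' ∉ colang A →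
      ∀ ψ : (M (List.ofFn v'')).wit, ((M (List.ofFn v'')).alg ψ).prob (ph A) ≤ β}

lemma measurableSet_Hev (M : List Bool → QVer (List Bool)) (α β : ℝ) (n : ℕ) :
    MeasurableSet (Hev M α β n) := by
  have e : Hev M α β n = ⋃ v : Fin n → Bool, ({A | List.ofFn v ∈ colang A} ∩
      {A | (M (List.ofFn v)).Accepts (ph A) α} ∩
      ⋂ v'' : Fin n → Bool, ({A | List.ofFn v'' ∈ colang A} ∪
        {A | ∀ ψ : (M (List.ofFn v'')).wit, ((M (List.ofFn v'')).alg ψ).prob (ph A) ≤ β})) := by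
    ext A
    simp only [Hev, Set.mem_ofPred_eq, Set.mem_iUnion, Set.mem_inter_iff, Set.mem_iInter,
      Set.mem_union]
    refine exists_congr fun v => ?_
    rw [and_assoc]
    refine and_congr_right fun _ => and_congr_right fun _ => forall_congr' fun v'' => ?_
    tauto
  rw [e]
  exact MeasurableSet.iUnion fun v => ((measurableSet_colang _).inter
    (QVer.measurableSet_accepts _ _)).inter (MeasurableSet.iInter fun v'' =>
      (measurableSet_colang _).union (QVer.measurableSet_le _ _))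

/-- The probability of the event. -/
lemma prob_Hev (M : List Bool → QVer (List Bool)) {α β : ℝ} (hαβ : β < α) (n : ℕ) {T : ℝ}
    (hT : ∀ v : Fin n → Bool, ((M (List.ofFn v)).T : ℝ) ≤ T) (hT0 : 0 ≤ T) {δ : ℝ} (hδ : 0 < δ) :
    (coins (List Bool)).real (Hev M α β n) ≤
      cden n * (2 ^ n * cden n + 1 + 29 * T ^ 2 / (α - β) ^ 2 +
        2 ^ n * ((δ + 4 * T ^ 2 * wq (Fin (clen n) → Bool) / δ) * (4 / (α - β)))) := by
  classical
  have he := lblk_injective n
  have hK := card_bits_ge n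
  have hHm := measurableSet_Hev M α β n
  set o : Fin (clen n) → Bool := fun _ => true with ho
  set w := wq (Fin (clen n) → Bool) with hw
  have hw0 : 0 < w := wq_pos hK
  set X := Fin n → Bool
  set Y := Fin (cnum n)
  set B : ℝ := cden n * (2 ^ n * cden n + 1 + 29 * T ^ 2 / (α - β) ^ 2 +
        2 ^ n * ((δ + 4 * T ^ 2 * w / δ) * (4 / (α - β)))) with hB
  set N : ℝ := (Fintype.card (X × Y → Fin (clen n) → Bool) : ℝ) with hN
  have hNpos : 0 < N := by
    rw [hN]; exact_mod_cast Fintype.card_pos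
  have h1 := resample (κ := List Bool) (lblk n) he
    (F := (Hev M α β n).indicator fun _ => (1 : ℝ)) ((integrable_const 1).indicator hHm)
  rw [integral_indicator hHm] at h1
  simp only [integral_const, measureReal_restrict_apply_univ, smul_eq_mul, mul_one] at h1
  have hcardX : (Fintype.card X : ℝ) = 2 ^ n := by simp [X]
  have hcardY : Fintype.card Y = cnum n := by simp [Y]
  have hprod : Fintype.card X * cnum n = Fintype.card (X × Y) := by
    rw [Fintype.card_prod, hcardY]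
  have hpt : ∀ ω, ∑ h : X × Y → Fin (clen n) → Bool,
      (Hev M α β n).indicator (fun _ => (1 : ℝ)) (fill (lblk n) ω h) ≤ B * N := by
    intro ω
    rw [sum_eq_plant (Y := X × Y) o hK]
    have hg : ∀ g ∈ wf (Y := X × Y) o, ∑ W : Finset (X × Y), wq (Fin (clen n) → Bool) ^ W.card *
        (Hev M α β n).indicator (fun _ => (1 : ℝ)) (fill (lblk n) ω (plant o g W)) ≤
        B * (1 + w) ^ Fintype.card (X × Y) := by
      intro g hg
      have h2 := length_estimate he (fun v : X => M (List.ofFn v)) ω o g hw0.le hαβ hT hT0 hδ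
      have h3 : 1 / (1 + w) ^ cnum n = cden n := rfl
      rw [hcardX, hcardY, hprod, h3] at h2
      refine le_trans (Finset.sum_le_sum fun W _ => ?_) h2
      refine mul_le_mul_of_nonneg_left ?_ (by positivity)
      by_cases hmem : fill (lblk n) ω (plant o g W) ∈ Hev M α β n
      · rw [Set.indicator_of_mem hmem, if_pos]
        obtain ⟨v, hv1, hv2, hv3⟩ := hmem
        refine ⟨v, (mem_colang_plant n v ω hg W).1 hv1, hv2, fun v'' hv'' ψ => ?_⟩
        refine hv3 v'' ?_ ψ
        rw [mem_colang_plant n v'' ω hg W]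
        push Not
        exact hv''
      · rw [Set.indicator_of_notMem hmem]
        split_ifs <;> norm_num
    calc ∑ g ∈ wf (Y := X × Y) o, ∑ W : Finset (X × Y), wq (Fin (clen n) → Bool) ^ W.card *
        (Hev M α β n).indicator (fun _ => (1 : ℝ)) (fill (lblk n) ω (plant o g W))
        ≤ ∑ _g ∈ wf (Y := X × Y) o, B * (1 + w) ^ Fintype.card (X × Y) := Finset.sum_le_sum hg
      _ = B * (((wf (Y := X × Y) o).card : ℝ) * (1 + w) ^ Fintype.card (X × Y)) := by
          rw [Finset.sum_const, nsmul_eq_mul]; ring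
      _ = B * N := by rw [hw, card_wf hK o]
  have h2 : ∫ ω, ∑ h : X × Y → Fin (clen n) → Bool,
      (Hev M α β n).indicator (fun _ => (1 : ℝ)) (fill (lblk n) ω h) ∂(coins (List Bool)) ≤
      B * N := by
    have hnn : ∀ ω, 0 ≤ ∑ h : X × Y → Fin (clen n) → Bool,
        (Hev M α β n).indicator (fun _ => (1 : ℝ)) (fill (lblk n) ω h) := fun ω =>
      Finset.sum_nonneg fun h _ => Set.indicator_nonneg (fun _ _ => zero_le_one) _
    have h3 := norm_integral_le_of_norm_le_const (μ := coins (List Bool))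
      (f := fun ω => ∑ h : X × Y → Fin (clen n) → Bool,
        (Hev M α β n).indicator (fun _ => (1 : ℝ)) (fill (lblk n) ω h)) (C := B * N)
      (ae_of_all _ fun ω => by rw [Real.norm_eq_abs, abs_of_nonneg (hnn ω)]; exact hpt ω)
    rw [Real.norm_eq_abs] at h3
    simpa using (le_abs_self _).trans h3
  rw [← h1, mul_comm] at h2
  exact le_of_mul_le_mul_right h2 hNpos

/-- The numerical estimate. -/
lemma Hev_numeric {α β : ℝ} (hαβ : β < α) (n : ℕ) (T : ℝ) :
    cden n * (2 ^ n * cden n + 1 + 29 * T ^ 2 / (α - β) ^ 2 +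
        2 ^ n * (((1 / 2) ^ n + 4 * T ^ 2 * wq (Fin (clen n) → Bool) / (1 / 2) ^ n) *
          (4 / (α - β)))) ≤
      (6 + 8 / (α - β)) * (1 / 2) ^ n +
        (58 / (α - β) ^ 2 + 16 / (α - β)) * (T ^ 2 / 2 ^ n) := by
  have h0 : 0 < α - β := by linarith
  obtain ⟨h1, h2⟩ := cden_bounds n
  have hc0 : 0 ≤ cden n := le_trans (by positivity) h1
  have hinv : (1 / 2 : ℝ) ^ n = 1 / 2 ^ n := by rw [one_div_pow]
  have h2n : (1 : ℝ) ≤ 2 ^ n := one_le_pow₀ (by norm_num)
  have hm' : (2 : ℝ) ^ clen n = 4 * (2 ^ n) ^ 3 := by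
    rw [clen, pow_add, mul_comm 3 n, pow_mul]; ring
  have hwq : wq (Fin (clen n) → Bool) ≤ 2 / 2 ^ clen n := by
    rw [wq]
    have hc : (Fintype.card (Fin (clen n) → Bool) : ℝ) = 2 ^ clen n := by simp
    have h3 : (2 : ℝ) ≤ 2 ^ clen n := by
      rw [hm']
      have : (1 : ℝ) ≤ (2 ^ n) ^ 3 := one_le_pow₀ h2n
      linarith
    rw [hc, div_le_div_iff₀ (by linarith) (by linarith)]
    linarith
  set q : ℝ := 2 ^ n with hq
  have hq0 : 0 < q := by positivity
  have e1 : 4 * T ^ 2 * wq (Fin (clen n) → Bool) / (1 / 2) ^ n ≤ 2 * (T ^ 2 / q ^ 2) := by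
    rw [hinv]
    calc 4 * T ^ 2 * wq (Fin (clen n) → Bool) / (1 / q)
        ≤ 4 * T ^ 2 * (2 / (4 * q ^ 3)) / (1 / q) := by
          rw [hm'] at hwq
          gcongr
      _ = 2 * (T ^ 2 / q ^ 2) := by field_simp; try ring
  have e2 : q * cden n ≤ 2 := by
    calc q * cden n ≤ q * (2 * (1 / q)) := mul_le_mul_of_nonneg_left h2 hq0.le
      _ = 2 := by field_simp
  have e3 : 2 ^ n * (((1 / 2) ^ n + 4 * T ^ 2 * wq (Fin (clen n) → Bool) / (1 / 2) ^ n) *
          (4 / (α - β))) ≤ q * ((1 / q + 2 * (T ^ 2 / q ^ 2)) * (4 / (α - β))) := by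
    rw [← hq, hinv] at *
    gcongr
  have e4 : cden n * (2 ^ n * cden n + 1 + 29 * T ^ 2 / (α - β) ^ 2) ≤
      2 * (1 / q) * (2 + 1 + 29 * T ^ 2 / (α - β) ^ 2) := by
    have : 2 ^ n * cden n + 1 + 29 * T ^ 2 / (α - β) ^ 2 ≤
        2 + 1 + 29 * T ^ 2 / (α - β) ^ 2 := by linarith
    exact mul_le_mul h2 this (by positivity) (by positivity)
  have e5 : cden n * (q * ((1 / q + 2 * (T ^ 2 / q ^ 2)) * (4 / (α - β)))) ≤
      2 * ((1 / q + 2 * (T ^ 2 / q ^ 2)) * (4 / (α - β))) := by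
    rw [← mul_assoc, mul_comm (cden n) q]
    exact mul_le_mul_of_nonneg_right e2 (by positivity)
  calc cden n * (2 ^ n * cden n + 1 + 29 * T ^ 2 / (α - β) ^ 2 +
        2 ^ n * (((1 / 2) ^ n + 4 * T ^ 2 * wq (Fin (clen n) → Bool) / (1 / 2) ^ n) *
          (4 / (α - β))))
      = cden n * (2 ^ n * cden n + 1 + 29 * T ^ 2 / (α - β) ^ 2) +
        cden n * (2 ^ n * (((1 / 2) ^ n + 4 * T ^ 2 * wq (Fin (clen n) → Bool) / (1 / 2) ^ n) *
          (4 / (α - β)))) := by ring
    _ ≤ 2 * (1 / q) * (2 + 1 + 29 * T ^ 2 / (α - β) ^ 2) +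
        2 * ((1 / q + 2 * (T ^ 2 / q ^ 2)) * (4 / (α - β))) :=
        add_le_add e4 ((mul_le_mul_of_nonneg_left e3 hc0).trans e5)
    _ ≤ _ := by
        rw [hinv]
        have h5 : T ^ 2 / q ^ 2 ≤ T ^ 2 / q := by
          refine div_le_div_of_nonneg_left (by positivity) hq0 ?_
          nlinarith
        have h6 : 0 < 4 / (α - β) := by positivity
        have h7 : 2 * (2 * (T ^ 2 / q ^ 2)) * (4 / (α - β)) ≤
            2 * (2 * (T ^ 2 / q)) * (4 / (α - β)) := by gcongr
        have h8 : 2 * (1 / q) * (2 + 1 + 29 * T ^ 2 / (α - β) ^ 2) +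
            2 * ((1 / q + 2 * (T ^ 2 / q ^ 2)) * (4 / (α - β))) =
            (6 + 8 / (α - β)) * (1 / q) + 58 / (α - β) ^ 2 * (T ^ 2 / q) +
              2 * (2 * (T ^ 2 / q ^ 2)) * (4 / (α - β)) := by
          field_simp; ring
        have h9 : 2 * (2 * (T ^ 2 / q)) * (4 / (α - β)) = 16 / (α - β) * (T ^ 2 / q) := by
          field_simp; ring
        rw [h8]
        linarith

theorem ae_not_Hev (M : List Bool → QVer (List Bool)) {α β : ℝ} (hαβ : β < α) (τ : ℕ → ℝ)
    (hτ : Summable fun n => τ n ^ 2 / 2 ^ n) (hT : ∀ x, ((M x).T : ℝ) ≤ τ x.length) :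
    ∀ᵐ A ∂(coins (List Bool)), ∀ᶠ n in atTop, A ∉ Hev M α β n := by
  have h0 : 0 < α - β := by linarith
  have hb : ∀ n, (coins (List Bool)).real (Hev M α β n) ≤
      (6 + 8 / (α - β)) * (1 / 2) ^ n +
        (58 / (α - β) ^ 2 + 16 / (α - β)) * (τ n ^ 2 / 2 ^ n) := by
    intro n
    have hTn : ∀ v : Fin n → Bool, ((M (List.ofFn v)).T : ℝ) ≤ τ n := by
      intro v
      have := hT (List.ofFn v)
      rwa [List.length_ofFn] at this
    have hT0 : 0 ≤ τ n := le_trans (Nat.cast_nonneg _) (hTn fun _ => false)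
    exact (prob_Hev M hαβ n hTn hT0 (by positivity : (0 : ℝ) < (1 / 2) ^ n)).trans
      (Hev_numeric hαβ n (τ n))
  have hs : Summable fun n => (coins (List Bool)).real (Hev M α β n) := by
    refine Summable.of_nonneg_of_le (fun n => measureReal_nonneg) hb ?_
    exact ((summable_geometric_of_lt_one (by norm_num) (by norm_num)).mul_left _).add
      (hτ.mul_left _)
  refine ae_eventually_notMem ?_
  have h1 : ∀ n, coins (List Bool) (Hev M α β n) =
      ENNReal.ofReal ((coins (List Bool)).real (Hev M α β n)) := fun n => by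
    rw [measureReal_def, ENNReal.ofReal_toReal (measure_ne_top _ _)]
  simp only [h1]
  rw [← ENNReal.ofReal_tsum_of_nonneg (fun n => measureReal_nonneg) hs]
  exact ENNReal.ofReal_ne_top

lemma of_not_Hev {M : List Bool → QVer (List Bool)} {α β : ℝ} (hαβ : β < α)
    {A : List Bool → Bool} (hA : ∀ᶠ n in atTop, A ∉ Hev M α β n)
    (hinf : {x | (M x).Accepts (ph A) α}.Infinite) :
    {x | x ∉ colang A ∧ (M x).Accepts (ph A) β}.Infinite := by
  intro hfin
  obtain ⟨n2, hn2⟩ := eventually_atTop.1 hA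
  obtain ⟨n1, hn1⟩ : ∃ n1 : ℕ, ∀ x ∈ {x | x ∉ colang A ∧ (M x).Accepts (ph A) β},
      x.length < n1 := by
    obtain ⟨n1, h⟩ := (hfin.image List.length).bddAbove
    exact ⟨n1 + 1, fun x hx => Nat.lt_succ_of_le (h ⟨x, hx, rfl⟩)⟩
  have hshort : {x : List Bool | x.length < max n1 n2}.Finite :=
    List.finite_length_lt Bool (max n1 n2)
  obtain ⟨x, hx, hlong⟩ := (hinf.sdiff hshort).nonempty
  have hlen : max n1 n2 ≤ x.length := by simpa using hlong
  have hx' : (M x).Accepts (ph A) α := hx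
  have hxmem : x ∈ colang A := by
    by_contra hnot
    obtain ⟨ψ, hψ⟩ := hx'
    have := hn1 x ⟨hnot, ψ, hαβ.le.trans hψ⟩
    have := le_of_max_le_left hlen
    omega
  refine hn2 x.length (le_of_max_le_right hlen) ⟨fun i => x.get i, ?_, ?_, ?_⟩
  · rw [List.ofFn_get]; exact hxmem
  · rw [List.ofFn_get]; exact hx'
  · intro v'' hv'' ψ
    by_contra hlt
    push Not at hlt
    have := hn1 (List.ofFn v'') ⟨hv'', ψ, hlt.le⟩
    rw [List.length_ofFn] at this
    have := le_of_max_le_left hlen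
    omega

theorem immune_main (𝓜 : Set (List Bool → QVer (List Bool))) (hc : 𝓜.Countable)
    (hT : ∀ M ∈ 𝓜, ∃ τ : ℕ → ℝ, (Summable fun n => τ n ^ 2 / 2 ^ n) ∧
      ∀ x, ((M x).T : ℝ) ≤ τ x.length) :
    ∀ᵐ A ∂(coins (List Bool)), (colang A).Infinite ∧ ∀ M ∈ 𝓜, ∀ α β : ℝ, β < α →
      {x | (M x).Accepts (ph A) α}.Infinite →
        {x | x ∉ colang A ∧ (M x).Accepts (ph A) β}.Infinite := by
  have h : ∀ᵐ A ∂(coins (List Bool)), ∀ M ∈ 𝓜, ∀ a b : ℚ, b < a →
      ∀ᶠ n in atTop, A ∉ Hev M a b n := by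
    rw [ae_ball_iff hc]
    intro M hM
    obtain ⟨τ, hτ, hTτ⟩ := hT M hM
    rw [ae_all_iff]
    intro a
    rw [ae_all_iff]
    intro b
    by_cases hab : b < a
    · filter_upwards [ae_not_Hev M (α := a) (β := b) (by exact_mod_cast hab) τ hτ hTτ]
        with A hA _ using hA
    · exact ae_of_all _ fun A h => absurd h hab
  filter_upwards [h, colang_infinite] with A hA hinfA
  refine ⟨hinfA, fun M hM α β hαβ hinf => ?_⟩
  obtain ⟨b, hb1, hb2⟩ := exists_rat_btwn hαβ
  obtain ⟨a, ha1, ha2⟩ := exists_rat_btwn hb2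
  have h1 := of_not_Hev (M := M) (α := a) (β := b) (by exact_mod_cast ha1)
    (hA M hM a b (by exact_mod_cast ha1))
    (hinf.mono fun x (hx : (M x).Accepts (ph A) α) => by
      obtain ⟨ψ, hψ⟩ := hx
      exact ⟨ψ, ha2.le.trans hψ⟩)
  refine h1.mono fun x hx => ⟨hx.1, ?_⟩
  obtain ⟨ψ, hψ⟩ := hx.2
  exact ⟨ψ, hb1.le.trans hψ⟩

end Pool.Agent.H17.QM
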